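import Pool.Agent.H37.CP.Targets

/-!
# The last phase (row PH0)
-/

namespace Pool.Agent.H42.CPE

open Finset
open Pool.Agent.H37.CP

lemma gg_nonneg (Y X : Type) [Fintype Y] [Fintype X] {δ : ℝ} (hδ : 0 ≤ δ) (q : ℕ) :
    0 ≤ gg Y X δ q := by
  unfold gg
  positivity

lemma gg_mono (Y X : Type) [Fintype Y] [Fintype X] {δ : ℝ} (hδ : 0 ≤ δ) {q q' : ℕ}
    (h : q ≤ q') : gg Y X δ q ≤ gg Y X δ q' := by
  unfold gg
  have h1 : (8 : ℝ) ^ q ≤ 8 ^ q' := pow_le_pow_right₀ (by norm_num) h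
  have h2 : (0 : ℝ) ≤ (Fintype.card Y : ℝ) * Fintype.card X := by positivity
  exact mul_le_mul_of_nonneg_right (mul_le_mul_of_nonneg_left h1 hδ) h2

lemma list_sum_le {α : Type} (P : List α) (f : α → ℝ) (c : ℝ) (h : ∀ π ∈ P, f π ≤ c) :
    (P.map f).sum ≤ P.length * c := by
  induction P with
  | nil => simp
  | cons a P ih =>
    rw [List.map_cons, List.sum_cons, List.length_cons]
    have h1 := h a List.mem_cons_self
    have h2 := ih fun π hπ => h π (List.mem_cons_of_mem _ hπ)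
    push_cast
    linarith

theorem pf_PH0 (hE : S_ERR) (hP : S_PIE) : S_PH0 := by
  intro Y X ι V _ _ K lY lX δ hδ hK w u dp hD B p v L hdp hin
  obtain ⟨P, hlen, hpi, hsum⟩ := hP Y X ι V lY lX w u dp hD B 0 p v L (by omega) hin
  rw [hsum K]
  have hc : ∀ π ∈ P, ∑ y, ∑ x ∈ row π.1 B y, K y x ≤ gg Y X δ (L.length + p) := by
    intro π hπ
    obtain ⟨h1, h2, h3⟩ := hpi π hπ
    have hleaf : Leaf lY lX w u π.2 := by
      rcases h3 with h3 | h3
      · rcases hD π.2 with h4 | ⟨v1, v2, h4, -⟩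
        · exact h4
        · omega
      · exact h3
    obtain ⟨i, hi⟩ := hleaf
    exact ((hE Y X ι K lY lX δ hδ hK π.1 B).2 i fun y x hx => hi y x (h2 y x hx)).trans
      (gg_mono Y X hδ h1)
  refine (list_sum_le P _ _ hc).trans ?_
  refine mul_le_mul_of_nonneg_right ?_ (gg_nonneg Y X hδ _)
  exact_mod_cast hlen

end Pool.Agent.H42.CPE
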