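import Pool.Agent.H37.CP.Targets

/-!
# Trees (row TRB)
-/

namespace Pool.Agent.H42.CPE

open Finset
open Pool.Agent.H37.CP

section

variable {Y X ι V : Type} {lY : ι → Set Y} {lX : ι → Finset X} {w : V → X → ℝ} {u : V → Y → ℝ}

lemma cov_anti {Z Z' : Y → X → Prop} (h : ∀ y x, Z' y x → Z y x) :
    ∀ t : MT V, t.Cov lY lX w u Z → t.Cov lY lX w u Z'
  | .dead v, ht => fun y x hz => ht y x (h y x hz)
  | .live v, ht => by
      obtain ⟨i, hi⟩ := ht
      exact ⟨i, fun y x hz => hi y x (h y x hz)⟩
  | .node v l r, ht =>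
      ⟨cov_anti h l ht.1, cov_anti h r ht.2.1, fun y x hz => ht.2.2 y x (h y x hz)⟩

lemma cov_zero {Z : Y → X → Prop} :
    ∀ t : MT V, t.Cov lY lX w u Z → t.cnt = 0 → ∀ y x, Z y x → ¬ w t.top x < u t.top y
  | .dead v, ht, _ => ht
  | .live v, _, h0 => by simp [MT.cnt] at h0
  | .node v l r, ht, h0 => by
      intro y x hz hlt
      have h0' : l.cnt + r.cnt = 0 := h0
      rcases ht.2.2 y x hz hlt with h | h
      · exact cov_zero l ht.1 (by omega) y x hz h
      · exact cov_zero r ht.2.1 (by omega) y x hz h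

lemma cov_one {Z : Y → X → Prop} :
    ∀ t : MT V, t.Cov lY lX w u Z → t.cnt = 1 →
      ∃ i, ∀ y x, Z y x → w t.top x < u t.top y → y ∈ lY i ∧ x ∈ lX i
  | .dead v, _, h1 => by simp [MT.cnt] at h1
  | .live v, ht, _ => ht
  | .node v l r, ht, h1 => by
      have h1' : l.cnt + r.cnt = 1 := h1
      by_cases hl : l.cnt = 0
      · obtain ⟨i, hi⟩ := cov_one r ht.2.1 (by omega)
        refine ⟨i, fun y x hz hlt => ?_⟩
        rcases ht.2.2 y x hz hlt with h | h
        · exact absurd h (cov_zero l ht.1 hl y x hz)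
        · exact hi y x hz h
      · obtain ⟨i, hi⟩ := cov_one l ht.1 (by omega)
        refine ⟨i, fun y x hz hlt => ?_⟩
        rcases ht.2.2 y x hz hlt with h | h
        · exact hi y x hz h
        · exact absurd h (cov_zero r ht.2.1 (by omega) y x hz)

end

lemma arith7 {a b k : ℕ} (ha : 3 * a ≤ 2 * k) (hb : 3 * b ≤ 2 * k) :
    8 * ((a : ℝ) ^ 7 + (b : ℝ) ^ 7) ≤ (k : ℝ) ^ 7 := by
  have ha' : (a : ℝ) ≤ 2 / 3 * k := by
    have : (3 : ℝ) * a ≤ 2 * k := by exact_mod_cast ha
    linarith
  have hb' : (b : ℝ) ≤ 2 / 3 * k := by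
    have : (3 : ℝ) * b ≤ 2 * k := by exact_mod_cast hb
    linarith
  have h1 : (a : ℝ) ^ 7 ≤ (2 / 3 * k) ^ 7 := pow_le_pow_left₀ (Nat.cast_nonneg _) ha' 7
  have h2 : (b : ℝ) ^ 7 ≤ (2 / 3 * k) ^ 7 := pow_le_pow_left₀ (Nat.cast_nonneg _) hb' 7
  have h3 : (0 : ℝ) ≤ (k : ℝ) ^ 7 := by positivity
  have h4 : (2 / 3 * (k : ℝ)) ^ 7 = 128 / 2187 * (k : ℝ) ^ 7 := by
    rw [mul_pow]
    norm_num
  rw [h4] at h1 h2
  linarith

theorem pf_TRB (hE : S_ERR) (hS : S_SEL) : S_TRB := by
  classical
  intro Y X ι V _ _ K lY lX δ hδ hK w u B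
  have key : ∀ k : ℕ, ∀ (t : MT V) (L : List (Cmp Y X)), t.cnt = k →
      t.Cov lY lX w u (fun y x => x ∈ row L B y) →
      (∀ y, ∀ x ∈ row L B y, w t.top x < u t.top y) →
      ∑ y, ∑ x ∈ row L B y, K y x ≤ (t.cnt : ℝ) ^ 7 * gg Y X δ L.length := by
    intro k
    induction k using Nat.strong_induction_on with
    | _ k ih =>
      intro t L hk hcov hin
      by_cases h0 : k = 0
      · have hz := cov_zero t hcov (by omega)
        have he : ∀ y, row L B y = ∅ := by
          intro y
          rw [Finset.eq_empty_iff_forall_notMem]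
          intro x hx
          exact hz y x hx (hin y x hx)
        have : ∑ y, ∑ x ∈ row L B y, K y x = 0 := by
          refine Finset.sum_eq_zero fun y _ => ?_
          rw [he y, Finset.sum_empty]
        rw [this, hk, h0]
        simp
      by_cases h1 : k = 1
      · obtain ⟨i, hi⟩ := cov_one t hcov (by omega)
        have := (hE Y X ι K lY lX δ hδ hK L B).2 i fun y x hx => hi y x hx (hin y x hx)
        rw [hk, h1]
        simpa using this
      obtain ⟨s, t', hs1, hs2, hs3, hs4, hs5⟩ := hS V t (by omega)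
      obtain ⟨hc1, hc2⟩ := hs5 Y X ι lY lX w u _ hcov
      set L1 : List (Cmp Y X) := nd w u s.top :: L with hL1
      set L2 : List (Cmp Y X) := ng w u s.top :: L with hL2
      have hm1 : ∀ y x, x ∈ row L1 B y ↔ x ∈ row L B y ∧ w s.top x < u s.top y := by
        intro y x
        simp only [row, Finset.mem_filter, hL1, List.mem_cons, forall_eq_or_imp]
        have : (nd w u s.top).H y x ↔ w s.top x < u s.top y := by
          simp [Cmp.H, nd]
        rw [this]
        tauto
      have hm2 : ∀ y x, x ∈ row L2 B y ↔ x ∈ row L B y ∧ ¬ w s.top x < u s.top y := by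
        intro y x
        simp only [row, Finset.mem_filter, hL2, List.mem_cons, forall_eq_or_imp]
        have : (ng w u s.top).H y x ↔ ¬ w s.top x < u s.top y := by
          simp [Cmp.H, ng]
        rw [this]
        tauto
      have hsplit : ∑ y, ∑ x ∈ row L B y, K y x =
          ∑ y, ∑ x ∈ row L1 B y, K y x + ∑ y, ∑ x ∈ row L2 B y, K y x := by
        rw [← Finset.sum_add_distrib]
        refine Finset.sum_congr rfl fun y _ => ?_
        have e1 : row L1 B y = (row L B y).filter (fun x => w s.top x < u s.top y) := by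
          ext x
          rw [hm1, Finset.mem_filter]
        have e2 : row L2 B y = (row L B y).filter (fun x => ¬ w s.top x < u s.top y) := by
          ext x
          rw [hm2, Finset.mem_filter]
        rw [e1, e2]
        exact (Finset.sum_filter_add_sum_filter_not _ _ _).symm
      have i1 := ih s.cnt (by omega) s L1 rfl
        (cov_anti (fun y x hx => ((hm1 y x).1 hx).1) s hc1) (fun y x hx => ((hm1 y x).1 hx).2)
      have i2 := ih t'.cnt (by omega) t' L2 rfl
        (cov_anti (fun y x hx => (hm2 y x).1 hx) t' hc2) (fun y x hx => by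
          rw [hs4]
          exact hin y x ((hm2 y x).1 hx).1)
      have hg1 : gg Y X δ L1.length = 8 * gg Y X δ L.length := by
        rw [hL1, List.length_cons]
        unfold gg
        rw [pow_succ]
        ring
      have hg2 : gg Y X δ L2.length = 8 * gg Y X δ L.length := by
        rw [hL2, List.length_cons]
        unfold gg
        rw [pow_succ]
        ring
      rw [hg1] at i1
      rw [hg2] at i2
      have hg0 : 0 ≤ gg Y X δ L.length := by
        unfold gg
        positivity
      have ha := arith7 (a := s.cnt) (b := t'.cnt) (k := t.cnt) (by omega) (by omega)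
      rw [hsplit]
      have h8 := mul_le_mul_of_nonneg_right ha hg0
      nlinarith
  exact fun t L hcov hin => key t.cnt t L rfl hcov hin

end Pool.Agent.H42.CPE
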